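import Mathlib
import Pool.Agent.Y575.SP.Main
import Pool.Agent.Y575.SP.Zfc

/-!
# MP_35f06d_lc: all values of `cov(M)` and of the continuum together with a continuum Luzin set

ZFC: if there is a `𝔠`-Luzin set, then `cf(𝔠) ≤ cov(M) ≤ 𝔠`; moreover the cofinality of `cov(M)` is
always uncountable (a consequence of Bartoszyński's characterization by infinitely often equal
functions, proved in `Pool.Agent.Y575.SP.Bart`).

Conversely, over a ground model of GCH all pairs `(cov(M), 𝔠)` allowed by these restrictions and by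
König's theorem are realized by ccc forcing notions. The forcing notion is a finite support
iteration of Hechler forcing along `lam × κ` with restricted memory: the promises made at the
coordinate `(η, k)` only use the coordinates `(η', k')` with `η'` in the memory of `η` and
`k' ≤ k`. The Cohen reals of one row are a `κ`-Luzin set, since a meager set depends on countably
many coordinates and these lie in a set `{(η, k) | k < b}`, which is closed under memory; `lam` many
of the generic reals are cofinal, so they give a cover of the Baire space by `lam` many meager sets;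
fewer than `lam` many meager sets do not cover since fewer than `lam` many rows are contained in a
proper subset of `lam` closed under memory.
-/

set_option autoImplicit false

namespace Pool.Agent.Results.MP_35f06d_lc.Spectrum

open Cardinal Ordinal Pool.Agent.Helper669.Forcing Pool.Agent.Y575.SP

/-- Some forcing notion with the countable chain condition forces that all cardinals are preserved,
that `cov(M) = lam`, that `𝔠 = κ` and that there is a `𝔠`-Luzin set. -/
def Realized (κ lam : Cardinal.{0}) : Prop :=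
  ∃ (P : Type) (_ : Preorder P), Nonempty P ∧
    (∀ A : Set P, (∀ a ∈ A, ∀ b ∈ A, a ≠ b → ¬ ∃ s, s ≤ a ∧ s ≤ b) → A.Countable) ∧
    ∀ p : P, p ∈ CardinalsPreserved.{0, 0} P ∧ p ∈ CovIs P lam ∧
      p ∈ ContinuumIs P κ ∧ p ∈ HasLuzinSet P κ

theorem result :
    -- (1) the restrictions in ZFC
    (covM ≤ 𝔠 ∧ ℵ₀ < covM.ord.cof ∧
      ∀ L : Set (ℕ → ℕ), #L = 𝔠 →
        (∀ M : Set (ℕ → ℕ), IsMeagre M → #(L ∩ M : Set (ℕ → ℕ)) < 𝔠) →
          (𝔠 : Cardinal.{0}).ord.cof ≤ covM) ∧
    -- (2) over a model of the generalized continuum hypothesis these are the only restrictions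
    ((∀ μ : Cardinal.{0}, ℵ₀ ≤ μ → 2 ^ μ = Order.succ μ) →
      ∀ κ lam : Cardinal.{0}, ℵ₀ < κ.ord.cof → ℵ₀ < lam.ord.cof → κ.ord.cof ≤ lam → lam ≤ κ →
        Realized κ lam) ∧
    -- (3) the same without the generalized continuum hypothesis
    (∀ κ lam : Cardinal.{0}, ℵ₀ < κ → κ ^ ℵ₀ = κ → (lam.IsRegular ∨ lam ^ ℵ₀ = lam) →
      κ.ord.cof ≤ lam → lam ≤ κ → Realized κ lam) ∧
    -- (4) `𝔠 = ℵ_{ω₁}`: the covering number can be `ℵ₁`, and every `ℵ_{α+1}` with `α < ω₁`
    ((ℵ_ ω₁ : Cardinal.{0}) ^ ℵ₀ = ℵ_ ω₁ →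
      Realized (ℵ_ ω₁) ℵ₁ ∧ ∀ α < ω₁, Realized (ℵ_ ω₁) (ℵ_ (α + 1))) := by
  have h3 : ∀ κ lam : Cardinal.{0}, ℵ₀ < κ → κ ^ ℵ₀ = κ → (lam.IsRegular ∨ lam ^ ℵ₀ = lam) →
      κ.ord.cof ≤ lam → lam ≤ κ → Realized κ lam := fun κ lam hκ hpow hlam hcof hle =>
    spectrum κ lam hκ hpow hlam hcof hle
  have h4 : (ℵ_ ω₁ : Cardinal.{0}) ^ ℵ₀ = ℵ_ ω₁ → ∀ α < ω₁, Realized (ℵ_ ω₁) (ℵ_ (α + 1)) := by
    intro hpow α hα
    refine h3 _ _ ?_ hpow (Or.inl (isRegular_aleph_add_one α)) ?_ ?_
    · rw [← aleph_zero, aleph_lt_aleph]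
      exact omega_pos 1
    · rw [cof_aleph_omega_one, aleph_le_aleph]
      exact le_add_self
    · rw [aleph_le_aleph]
      exact Order.succ_le_of_lt hα
  refine ⟨⟨covM_le_continuum, aleph0_lt_cof_covM, cof_continuum_le⟩, ?_, h3, fun hpow => ⟨?_,
    h4 hpow⟩⟩
  · intro hgch κ lam hκ hlam hcof hle
    exact h3 κ lam (hκ.trans_le (cof_ord_le κ)) (pow_aleph0_of_gch hgch hκ)
      (Or.inr (pow_aleph0_of_gch hgch hlam)) hcof hle
  · have h5 := h4 hpow 0 (omega_pos 1)
    rwa [zero_add] at h5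

end Pool.Agent.Results.MP_35f06d_lc.Spectrum
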